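import Pool.Agent.Helper77.CR.BASE
import Pool.Agent.Helper5.CR.DISC

/-!
# Counting the regions (CR-CNT)
-/

namespace Pool.Agent.Helper77.CR

open Pool.Agent.Helper9.FA (Item Cor Ang wfP labels)
open Pool.Agent.Helper9.TW (Lab Conn)
open Pool.Agent.Helper28.TX (PV Pot)

variable {α : Type}

namespace Cnt

/-- exchanging sums -/
theorem sum_swap {β M : Type} [AddCommMonoid M] (l : List β) (R : Finset ℕ) (g : ℕ → β → M) :
    (l.map fun q => ∑ F ∈ R, g F q).sum = ∑ F ∈ R, (l.map (g F)).sum := by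
  induction l with
  | nil => simp
  | cons q l ih => simp [ih, Finset.sum_add_distrib]

theorem EU_map (f : ℕ → Bool) (θ : List (PV ℕ)) (e : List (Bool × ℕ × ℕ)) :
    EU (θ.map (PV.map f)) (mE f e) = (θ.map fun q => bz (f q.T)).sum +
      (e.map fun y => if y.1 = true then bz (f y.2.2) else -bz (f y.2.1)).sum := by
  simp [EU, mE, List.map_map, Function.comp_def, PV.map]

theorem bz_sum (R : Finset ℕ) (x : ℕ) :
    bz (decide (x ∈ R)) = ∑ F ∈ R, bz (decide (x = F)) := by
  simp [bz]

/-- the Euler characteristics are additive -/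
theorem EU_add (R : Finset ℕ) (θ : List (PV ℕ)) (e : List (Bool × ℕ × ℕ)) :
    EU (θ.map (PV.map fun x => decide (x ∈ R))) (mE (fun x => decide (x ∈ R)) e) =
      ∑ F ∈ R, EU (θ.map (PV.map fun x => decide (x = F))) (mE (fun x => decide (x = F)) e) := by
  simp only [EU_map, Finset.sum_add_distrib]
  rw [← sum_swap, ← sum_swap]
  congr 2
  · refine List.map_congr_left fun q _ => ?_
    exact bz_sum R q.T
  · refine List.map_congr_left fun y _ => ?_
    split_ifs
    · exact bz_sum R _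
    · rw [bz_sum R, Finset.sum_neg_distrib]

theorem mem_ids_cor {c : List ℕ} {θ : List (PV ℕ)} {e : List (Bool × ℕ × ℕ)} {q : PV ℕ}
    (hq : q ∈ θ) {x : ℕ} (hx : x ∈ cor q) : x ∈ ids c θ e := by
  simp only [ids, List.mem_toFinset, List.mem_append, List.mem_flatMap]
  exact Or.inl (Or.inr ⟨q, hq, hx⟩)

theorem mem_ids_e {c : List ℕ} {θ : List (PV ℕ)} {e : List (Bool × ℕ × ℕ)} {y : Bool × ℕ × ℕ}
    (hy : y ∈ e) : y.2.1 ∈ ids c θ e ∧ y.2.2 ∈ ids c θ e := by
  simp only [ids, List.mem_toFinset, List.mem_append, List.mem_flatMap]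
  exact ⟨Or.inr ⟨y, hy, by simp⟩, Or.inr ⟨y, hy, by simp⟩⟩

/-- the sum of all -/
theorem EU_all (c : List ℕ) (θ : List (PV ℕ)) (e : List (Bool × ℕ × ℕ)) :
    EU (θ.map (PV.map fun x => decide (x ∈ ids c θ e))) (mE (fun x => decide (x ∈ ids c θ e)) e) =
      θ.length + ncup e - ncap e := by
  rw [EU_map]
  have h1 : (θ.map fun q => bz (decide (q.T ∈ ids c θ e))).sum = θ.length := by
    have : (θ.map fun q => bz (decide (q.T ∈ ids c θ e))) = θ.map fun _ => (1 : ℤ) := by
      refine List.map_congr_left fun q hq => ?_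
      have := mem_ids_cor (c := c) (e := e) hq (x := q.T) (by simp [cor])
      simp [bz, this]
    rw [this]
    simp
  have h2 : (e.map fun y => if y.1 = true then bz (decide (y.2.2 ∈ ids c θ e))
      else -bz (decide (y.2.1 ∈ ids c θ e))).sum = (ncup e : ℤ) - ncap e := by
    have : (e.map fun y => if y.1 = true then bz (decide (y.2.2 ∈ ids c θ e))
      else -bz (decide (y.2.1 ∈ ids c θ e))) = e.map fun y => if y.1 = true then (1 : ℤ) else -1 := by
      refine List.map_congr_left fun y hy => ?_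
      obtain ⟨h1, h2⟩ := mem_ids_e (c := c) (θ := θ) hy
      simp [bz, h1, h2]
    rw [this]
    clear this h1
    generalize hθ : θ = θ'
    clear hθ
    induction e with
    | nil => simp [ncup, ncap]
    | cons y e ih =>
      obtain ⟨b, o, i⟩ := y
      cases b
      · simp [ncup, ncap] at ih ⊢
        rw [ih]; ring
      · simp [ncup, ncap] at ih ⊢
        rw [ih]; ring
  rw [h1, h2]
  ring

theorem ids_eq (c0 c1 : ℕ) (θ : List (PV ℕ)) (e : List (Bool × ℕ × ℕ)) :
    ids (c0 :: c1 :: [c0, c1]) θ e = ids [c0, c1] θ e := by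
  ext x
  simp only [ids, List.mem_toFinset, List.mem_append, List.mem_cons]
  tauto

theorem ids_split (c0 c1 : ℕ) (θ : List (PV ℕ)) (e : List (Bool × ℕ × ℕ)) :
    ids [c0, c1] θ e = insert c0 (insert c1 (All c0 c1 θ e)) := by
  ext x
  simp only [All, Finset.mem_insert, Finset.mem_filter]
  constructor
  · intro h
    by_cases h0 : x = c0
    · exact Or.inl h0
    by_cases h1 : x = c1
    · exact Or.inr (Or.inl h1)
    exact Or.inr (Or.inr ⟨h, h0, h1⟩)
  · rintro (h | h | h)
    · subst h; simp [ids]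
    · subst h; simp [ids]
    · exact h.1

theorem c0_notMem (c0 c1 : ℕ) (θ : List (PV ℕ)) (e : List (Bool × ℕ × ℕ)) :
    c0 ∉ All c0 c1 θ e := by simp [All]

theorem c1_notMem (c0 c1 : ℕ) (θ : List (PV ℕ)) (e : List (Bool × ℕ × ℕ)) :
    c1 ∉ All c0 c1 θ e := by simp [All]

theorem tru_of_mem {c0 c1 : ℕ} {θ : List (PV ℕ)} {e : List (Bool × ℕ × ℕ)} {F : ℕ}
    (hF : F ∈ All c0 c1 θ e) :
    Tru (θ.map (PV.map fun x => decide (x = F))) (mE (fun x => decide (x = F)) e) := by
  simp only [All, Finset.mem_filter, ids, List.mem_toFinset, List.mem_append, List.mem_flatMap]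
    at hF
  obtain ⟨h, h0, h1⟩ := hF
  rcases h with (h | ⟨q, hq, hx⟩) | ⟨y, hy, hx⟩
  · simp at h
    tauto
  · left
    refine ⟨q.map fun x => decide (x = F), List.mem_map_of_mem hq, ?_⟩
    simp only [cor, PV.map, List.mem_cons, List.not_mem_nil, or_false] at hx ⊢
    rcases hx with h | h | h | h <;> simp [← h]
  · right
    refine ⟨(y.1, decide (y.2.1 = F), decide (y.2.2 = F)), ?_, ?_⟩
    · simp only [mE, List.mem_map]
      exact ⟨y, hy, rfl⟩
    · simp only [List.mem_cons, List.not_mem_nil, or_false] at hx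
      rcases hx with h | h <;> simp [← h]

theorem main {P : List (Item α)} (hc : Conn P) {c0 c1 : ℕ} {θ : List (PV ℕ)}
    {e : List (Bool × ℕ × ℕ)} (hU : Uni P c0 c1 [c0, c1] θ e) :
    c0 ≠ c1 ∧ (All c0 c1 θ e).card = θ.length ∧
    (∀ F ∈ All c0 c1 θ e, EU (θ.map (PV.map fun x => decide (x = F)))
      (mE (fun x => decide (x = F)) e) = 1) ∧
    EU (θ.map (PV.map fun x => decide (x = c0))) (mE (fun x => decide (x = c0)) e) = 0 ∧
    EU (θ.map (PV.map fun x => decide (x = c1))) (mE (fun x => decide (x = c1)) e) = 0 := by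
  set E : ℕ → ℤ := fun F => EU (θ.map (PV.map fun x => decide (x = F)))
      (mE (fun x => decide (x = F)) e) with hE
  have hcnt := pot_count hU.pot
  have hcard := hU.card
  rw [ids_eq] at hcard
  have hnn : ncup e = ncap e := by
    have := hcnt.2
    simp at this
    omega
  have hE0 : ∀ F, 0 ≤ E F := fun F => by
    have := pot_map (fun x => decide (x = F)) hU.pot
    exact (disc hc (by simpa using this)).1
  have hE1 : ∀ F ∈ All c0 c1 θ e, 1 ≤ E F := fun F hF => by
    have h1 := pot_map (fun x => decide (x = F)) hU.pot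
    refine (disc hc (by simpa using h1)).2 ?_ ?_ (tru_of_mem hF)
    · simp only [decide_eq_false_iff_not]
      rintro rfl
      exact c0_notMem _ _ _ _ hF
    · simp only [decide_eq_false_iff_not]
      rintro rfl
      exact c1_notMem _ _ _ _ hF
  have hsum : ∑ F ∈ ids [c0, c1] θ e, E F = θ.length := by
    rw [hE]
    rw [← EU_add, EU_all, hnn]
    ring
  have hA : ((All c0 c1 θ e).card : ℤ) ≤ ∑ F ∈ All c0 c1 θ e, E F := by
    calc ((All c0 c1 θ e).card : ℤ) = ∑ F ∈ All c0 c1 θ e, (1 : ℤ) := by simp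
      _ ≤ _ := Finset.sum_le_sum hE1
  have hne : c0 ≠ c1 := by
    rintro rfl
    rw [ids_split, Finset.insert_idem, Finset.sum_insert (c0_notMem _ _ _ _)] at hsum
    rw [ids_split, Finset.insert_idem, Finset.card_insert_of_notMem (c0_notMem _ _ _ _)] at hcard
    have := hE0 c0
    have h3 : (θ.length : ℤ) + 1 ≤ (All c0 c0 θ e).card := by
      have : θ.length + 1 ≤ (All c0 c0 θ e).card := by omega
      exact_mod_cast this
    linarith
  have hn1 : c0 ∉ insert c1 (All c0 c1 θ e) := by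
    simp only [Finset.mem_insert, not_or]
    exact ⟨hne, c0_notMem _ _ _ _⟩
  rw [ids_split, Finset.sum_insert hn1, Finset.sum_insert (c1_notMem _ _ _ _)] at hsum
  rw [ids_split, Finset.card_insert_of_notMem hn1,
    Finset.card_insert_of_notMem (c1_notMem _ _ _ _)] at hcard
  have h3 : (θ.length : ℤ) ≤ (All c0 c1 θ e).card := by
    have : θ.length ≤ (All c0 c1 θ e).card := by omega
    exact_mod_cast this
  have e0 := hE0 c0
  have e1 := hE0 c1
  refine ⟨hne, ?_, ?_, ?_, ?_⟩
  · have : ((All c0 c1 θ e).card : ℤ) = θ.length := by linarith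
    exact_mod_cast this
  · have hz : ∑ F ∈ All c0 c1 θ e, (1 : ℤ) = ∑ F ∈ All c0 c1 θ e, E F := by
      simp only [Finset.sum_const, nsmul_eq_mul, mul_one]
      linarith
    intro F hF
    exact ((Finset.sum_eq_sum_iff_of_le hE1).1 hz F hF).symm
  · show E c0 = 0
    linarith
  · show E c1 = 0
    linarith

/-- the weighted sums are linear -/
theorem wsumA_lin (S : Finset ℕ) (h : ℕ → ℝ) (θ : List (PV ℕ)) (us : List (Cor ℝ))
    (hθ : ∀ q ∈ θ, ∀ x ∈ cor q, x ∈ S) :
    wsumA (θ.map (PV.map h)) us = ∑ F ∈ S, h F * fsum F θ us := by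
  have key : ∀ x ∈ S, h x = ∑ F ∈ S, h F * (if x = F then (1 : ℝ) else 0) := fun x hx => by
    simp [hx]
  induction θ generalizing us with
  | nil => simp [wsumA, fsum]
  | cons q θ ih =>
    cases us with
    | nil => simp [wsumA, fsum]
    | cons u us =>
      have h1 := ih us (fun q hq => hθ q (List.mem_cons_of_mem _ hq))
      have hc : ∀ x ∈ cor q, x ∈ S := hθ q List.mem_cons_self
      have hL := key q.L (hc _ (by simp [cor]))
      have hB := key q.B (hc _ (by simp [cor]))
      have hR := key q.R (hc _ (by simp [cor]))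
      have hT := key q.T (hc _ (by simp [cor]))
      have e1 : wsumA ((q :: θ).map (PV.map h)) (u :: us) =
          (h q.L * u.uL + h q.B * u.uB + h q.R * u.uR + h q.T * u.uT) +
            wsumA (θ.map (PV.map h)) us := by
        simp [wsumA, PV.map]
      have e2 : ∀ F, fsum F (q :: θ) (u :: us) =
          ((if q.L = F then (1 : ℝ) else 0) * u.uL + (if q.B = F then (1 : ℝ) else 0) * u.uB +
            (if q.R = F then (1 : ℝ) else 0) * u.uR + (if q.T = F then (1 : ℝ) else 0) * u.uT) +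
            fsum F θ us := fun F => by
        simp only [fsum, wsumA, PV.map, List.map_cons, List.zipWith_cons_cons, List.sum_cons]
      rw [e1, h1]
      simp only [e2, mul_add, Finset.sum_add_distrib]
      congr 1
      have e3 : ∀ (x : ℕ) (t : ℝ), ∑ F ∈ S, h F * ((if x = F then (1 : ℝ) else 0) * t) =
          (∑ F ∈ S, h F * (if x = F then (1 : ℝ) else 0)) * t := fun x t => by
        rw [Finset.sum_mul]
        refine Finset.sum_congr rfl fun F _ => by ring
      rw [e3, e3, e3, e3, ← hL, ← hB, ← hR, ← hT]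

/-- the sum over the vertices and extrema is linear -/
theorem EU_lin (S : Finset ℕ) (h : ℕ → ℝ) (θ : List (PV ℕ)) (e : List (Bool × ℕ × ℕ))
    (hθ : ∀ q ∈ θ, q.T ∈ S) (he : ∀ y ∈ e, y.2.1 ∈ S ∧ y.2.2 ∈ S) :
    (θ.map fun q => h q.T).sum + (e.map fun y => if y.1 = true then h y.2.2 else -h y.2.1).sum =
      ∑ F ∈ S, h F * ((EU (θ.map (PV.map fun x => decide (x = F)))
        (mE (fun x => decide (x = F)) e) : ℤ) : ℝ) := by
  have key : ∀ x ∈ S, h x = ∑ F ∈ S, h F * ((bz (decide (x = F)) : ℤ) : ℝ) := fun x hx => by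
    simp [bz, hx]
  have e1 : ∀ F, h F * ((EU (θ.map (PV.map fun x => decide (x = F)))
        (mE (fun x => decide (x = F)) e) : ℤ) : ℝ) =
      (θ.map fun q => h F * ((bz (decide (q.T = F)) : ℤ) : ℝ)).sum +
      (e.map fun y => h F * (((if y.1 = true then bz (decide (y.2.2 = F))
        else -bz (decide (y.2.1 = F))) : ℤ) : ℝ)).sum := fun F => by
    rw [EU_map]
    push_cast
    rw [mul_add]
    congr 1
    · rw [← List.sum_map_mul_left]
      simp [List.map_map, Function.comp_def]
    · rw [← List.sum_map_mul_left]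
      simp [List.map_map, Function.comp_def]
  simp only [e1, Finset.sum_add_distrib]
  rw [← sum_swap, ← sum_swap]
  congr 2
  · refine List.map_congr_left fun q hq => ?_
    exact key _ (hθ q hq)
  · refine List.map_congr_left fun y hy => ?_
    obtain ⟨h1, h2⟩ := he y hy
    split_ifs
    · exact key _ h2
    · rw [key _ h1, ← Finset.sum_neg_distrib]
      refine Finset.sum_congr rfl fun F _ => ?_
      push_cast
      ring

end Cnt

theorem uni_ne {P : List (Item α)} (hc : Conn P) {c0 c1 : ℕ} {θ : List (PV ℕ)}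
    {e : List (Bool × ℕ × ℕ)} (hU : Uni P c0 c1 [c0, c1] θ e) : c0 ≠ c1 :=
  (Cnt.main hc hU).1

theorem count_all {P : List (Item α)} (hc : Conn P) {c0 c1 : ℕ} {θ : List (PV ℕ)}
    {e : List (Bool × ℕ × ℕ)} (hU : Uni P c0 c1 [c0, c1] θ e) :
    (All c0 c1 θ e).card = θ.length ∧
    (∀ F ∈ All c0 c1 θ e, EU (θ.map (PV.map fun x => decide (x = F)))
      (mE (fun x => decide (x = F)) e) = 1) ∧
    EU (θ.map (PV.map fun x => decide (x = c0))) (mE (fun x => decide (x = c0)) e) = 0 ∧
    EU (θ.map (PV.map fun x => decide (x = c1))) (mE (fun x => decide (x = c1)) e) = 0 :=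
  (Cnt.main hc hU).2

theorem EU_card {P : List (Item α)} (hc : Conn P) {c0 c1 : ℕ} {θ : List (PV ℕ)}
    {e : List (Bool × ℕ × ℕ)} (hU : Uni P c0 c1 [c0, c1] θ e) {R : Finset ℕ}
    (hR : R ⊆ All c0 c1 θ e) :
    EU (θ.map (PV.map fun x => decide (x ∈ R))) (mE (fun x => decide (x ∈ R)) e) = R.card := by
  rw [Cnt.EU_add, Finset.sum_congr rfl fun F hF => (count_all hc hU).2.1 F (hR hF)]
  simp

/-- the pairing identity -/
theorem val_zero {P : List (Item α)} (hc : Conn P) {c0 c1 : ℕ} {θ : List (PV ℕ)}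
    {e : List (Bool × ℕ × ℕ)} (hU : Uni P c0 c1 [c0, c1] θ e) {us : List (Cor ℝ)}
    (hF : FS θ (All c0 c1 θ e) us) {k0 k1 : ℝ} {c' : List ℝ} {θ' : List (PV ℝ)}
    {e' : List (Bool × ℝ × ℝ)} (hp : Pot k0 k1 P c' θ' e') : val θ' e' us = 0 := by
  obtain ⟨h, -, -, -, rfl, rfl⟩ := hU.uni _ _ _ _ _ _ hp
  obtain ⟨hne, -, hE1, hE0, hE0'⟩ := Cnt.main hc hU
  have h1 := Cnt.wsumA_lin (ids [c0, c1] θ e) h θ us (fun q hq x hx => Cnt.mem_ids_cor hq hx)
  have h2 := Cnt.EU_lin (ids [c0, c1] θ e) h θ e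
    (fun q hq => Cnt.mem_ids_cor hq (by simp [cor])) (fun y hy => Cnt.mem_ids_e hy)
  have hn1 : c0 ∉ insert c1 (All c0 c1 θ e) := by
    simp only [Finset.mem_insert, not_or]
    exact ⟨hne, Cnt.c0_notMem _ _ _ _⟩
  rw [Cnt.ids_split, Finset.sum_insert hn1, Finset.sum_insert (Cnt.c1_notMem _ _ _ _),
    hF.face c0, hF.face c1, if_neg (Cnt.c0_notMem _ _ _ _), if_neg (Cnt.c1_notMem _ _ _ _),
    Finset.sum_congr rfl fun F hF' => by rw [hF.face F, if_pos hF']] at h1
  rw [Cnt.ids_split, Finset.sum_insert hn1, Finset.sum_insert (Cnt.c1_notMem _ _ _ _),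
    hE0, hE0', Finset.sum_congr rfl fun F hF' => by rw [hE1 F hF']] at h2
  have e1 : ((θ.map (PV.map h)).map PV.T).sum = (θ.map fun q => h q.T).sum := by
    simp [List.map_map, Function.comp_def, PV.map]
  have e2 : ((mE h e).map fun y => if y.1 = true then -y.2.2 else y.2.1).sum =
      -(e.map fun y => if y.1 = true then h y.2.2 else -h y.2.1).sum := by
    clear h2 h1 hE1 hE0 hE0' hF hU hp hn1
    induction e with
    | nil => simp [mE]
    | cons y e ih =>
      simp only [mE, List.map_cons, List.sum_cons] at ih ⊢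
      rw [ih]
      split_ifs <;> ring
  rw [val, e1, e2, h1]
  have h3 : ∑ F ∈ All c0 c1 θ e, h F * Real.pi = Real.pi * ∑ F ∈ All c0 c1 θ e, h F := by
    rw [Finset.mul_sum]
    exact Finset.sum_congr rfl fun F _ => mul_comm _ _
  rw [h3]
  simp only [Int.cast_zero, mul_zero, zero_add, Int.cast_one, mul_one] at h2 ⊢
  rw [← h2]
  ring

end Pool.Agent.Helper77.CR
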